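import Pool.Agent.Helper98.WF.St

set_option autoImplicit false

/-! Project WF, module MZ: the alternating form (helper4). -/

namespace Pool.Agent.Helper4.WF.M_MZ

open Pool.Agent.Helper98.WF
open Polynomial

theorem small_sub {F : Type} [Field F] {d : ℕ} {P R : F[X]} (hP : PrD d P) (hR : PrD d R)
    (hne : R ≠ P) : (R - P).natDegree < d := by
  have hR0 : R ≠ 0 := hR.1.ne_zero
  have hdeg : R.degree = P.degree := by
    rw [degree_eq_natDegree hR0, degree_eq_natDegree hP.1.ne_zero, hR.2.2, hP.2.2]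
  have hlc : R.leadingCoeff = P.leadingCoeff := by rw [hR.1, hP.1]
  have h1 := degree_sub_lt hdeg hR0 hlc
  have h2 : R - P ≠ 0 := sub_ne_zero.mpr hne
  have h3 := natDegree_lt_natDegree h2 h1
  rwa [hR.2.2] at h3

theorem mk_prime_ne {F : Type} [Field F] {d : ℕ} {P R : F[X]} (hP : PrD d P) (hR : PrD d R)
    (hne : R ≠ P) : AdjoinRoot.mk P R ≠ 0 := by
  intro h
  rw [AdjoinRoot.mk_eq_zero] at h
  have h1 : Associated P R := (hP.2.1.dvd_irreducible_iff_associated hR.2.1).mp h
  exact hne (eq_of_monic_of_associated hP.1 hR.1 h1).symm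

theorem stMZ (hBB : StBB) (hTB : StTB) (hCMP : StCMP) (hGEN : StGEN) (hRHO : StRHO) : StMZ := by
  intro p _ F E _ _ _ _ L d P T m n hAlg hL hP hT halt hTri
  obtain ⟨⟨hL0, hL1, hneg⟩, hsm, -, -, -, hVT, -⟩ := hGEN F E L hL
  obtain ⟨hd, -, -, -, -, -, -, -, hmk⟩ := hRHO F d P hP
  obtain ⟨hS1, hS2⟩ := hVT d T
  have hSm : ∀ a : F[X], a.natDegree < d → L a ∈ VT L d T := fun a ha => hS1 (hsm d a ha)
  have hone : (1 : F[X]).natDegree < d := by rw [natDegree_one]; exact hd
  have hBB' := hBB p F E L d P (VT L d T) m n hAlg hL hP hS1 halt hTri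
  refine hTB p F E L d T m hAlg hL hd (fun R hR => (hT R hR).1) halt ?_ ?_
  · intro R a b c s hR0 ha0 hb0 hc0 hs0 hR ha hb hc hs heq
    have hLR : L R ∈ VT L d T := by
      rcases hR with h | h
      · exact hSm R h
      · exact hS2 R h
    have hmR : AdjoinRoot.mk P R ≠ 0 := by
      rcases hR with h | h
      · exact hmk R hR0 h
      · exact mk_prime_ne hP (hT R h).1 (hT R h).2
    have hms : AdjoinRoot.mk P s ≠ 0 := hmk s hs0 hs
    have e1 : c * 1 - a * b = -(R * s) := by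
      rw [heq]; ring
    have hLRs : L (c * 1 - a * b) = L R + L s := by
      rw [e1, hneg, hL.mul R s hR0 hs0]
    have hmem : L (c * 1 - a * b) ∈ VT L d T := by
      rw [hLRs]
      exact (VT L d T).add_mem hLR (hSm s hs)
    have hmkne : AdjoinRoot.mk P (c * 1 - a * b) ≠ 0 := by
      rw [e1, map_neg, neg_ne_zero, map_mul]
      haveI : Fact (Irreducible P) := ⟨hP.2.1⟩
      exact mul_ne_zero hmR hms
    have hz := hBB' a b c 1 ha0 hb0 hc0 one_ne_zero ha hb hc hone hmem hmkne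
    unfold Z at hz
    rw [hLRs, mul_one, hL.mul a b ha0 hb0] at hz
    exact hz
  · intro R hR R' hR' r hr0 hr heq
    have hRp := hT R hR
    have hRp' := hT R' hR'
    have hr1 : R' - R = -r := by rw [heq]; ring
    have hr2 : (R' - P) - (R - P) = -r := by rw [heq]; ring
    have hnr0 : -r ≠ 0 := neg_ne_zero.mpr hr0
    have hLr : L (-r) ∈ VT L d T := by rw [hneg]; exact hSm r hr
    have hm1 : (R - P).natDegree < d := small_sub hP hRp.1 hRp.2
    have hm2 : (R' - P).natDegree < d := small_sub hP hRp'.1 hRp'.2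
    have hm10 : R - P ≠ 0 := sub_ne_zero.mpr hRp.2
    have hm20 : R' - P ≠ 0 := sub_ne_zero.mpr hRp'.2
    have h1 := hCMP F E L P (VT L d T) m n hL halt hTri R R' (R - P) (R' - P) (-r)
      hRp.1.1.ne_zero hRp'.1.1.ne_zero (by rw [hr1]; exact hnr0) hm10 hm20
      (by rw [hr2]; exact hnr0) (hS2 R hR) (hS2 R' hR') (by rw [hr1]; exact hLr)
      (hSm _ hm1) (hSm _ hm2) (by rw [hr2]; exact hLr) hLr (by rw [heq]; ring)
    have hmkr : AdjoinRoot.mk P r ≠ 0 := hmk r hr0 hr
    have e2 : (R' - P) * 1 - (R - P) * 1 = -r := by rw [mul_one, mul_one, hr2]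
    have h2 := hBB' (R - P) 1 (R' - P) 1 hm10 one_ne_zero hm20 one_ne_zero hm1 hone hm2 hone
      (by rw [e2]; exact hLr) (by rw [e2, map_neg, neg_ne_zero]; exact hmkr)
    rw [mul_one, mul_one] at h2
    rw [h2] at h1
    unfold Z at h1
    rw [hr1, hneg] at h1
    exact h1

end Pool.Agent.Helper4.WF.M_MZ
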